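import Pool.Agent.P8H47.FP.Stm5

/-! # Project FP, package C1O: classes of the products, with orderings -/

set_option autoImplicit false

namespace Pool.Agent.P8H55.FP

open Pool.Agent.Y920.EP (pwG)
open Pool.Agent.P8H47.EC
open Pool.Agent.P8H47.EC2
open Pool.Agent.P8H47.FP

variable {F : Type} [Field F]

/-- the set `1 + y² O` for a valuation ring, a neighbourhood of `1` for an ordering -/
theorem near_unit (q : Place F) (y : Fˣ)
    (hy : ∀ O, q = .inl O → (y : F) ∈ O ∧ (y : F)⁻¹ ∉ O) {M : ℕ} (hM : 2 ≤ M) {u : Fˣ}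
    (h : Near M q ((y * y : Fˣ) : F) 1 u) : (u : F) ∈ Rg q ∧ ((u⁻¹ : Fˣ) : F) ∈ Rg q := by
  rcases q with O | e
  · obtain ⟨h1, h2⟩ := hy O rfl
    obtain ⟨b, hb, hu⟩ := h
    obtain ⟨v, hv, hv1, hv2⟩ := unit_one_add (sq_max h1 h2 hb).1 (sq_max h1 h2 hb).2
    have e1 : u = v := by
      apply Units.ext
      rw [hu, hv, one_mul, Units.val_mul]
    rw [e1]
    exact ⟨hv1, hv2⟩
  · have h' : |e.f (u : F) - e.f 1| * (M : e.R) ≤ |e.f 1| := h
    rw [map_one, abs_one] at h'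
    have hM' : (2 : e.R) ≤ M := by exact_mod_cast hM
    have h3 : |e.f (u : F) - 1| * 2 ≤ 1 :=
      (mul_le_mul_of_nonneg_left hM' (abs_nonneg _)).trans h'
    have h4 := abs_le.1 (show |e.f (u : F) - 1| ≤ 1 / 2 by linarith)
    refine ⟨⟨2, ?_⟩, ⟨2, ?_⟩⟩
    · rw [abs_le]
      push_cast
      constructor <;> linarith [h4.1, h4.2]
    · have h5 : (1 : e.R) / 2 ≤ e.f (u : F) := by linarith [h4.1]
      rw [Units.val_inv_eq_inv_val, map_inv₀, abs_inv, abs_of_nonneg (by linarith)]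
      push_cast
      rw [inv_le_comm₀ (by linarith) (by norm_num)]
      linarith

theorem near_div {q : Place F} {n : F} {M : ℕ} {a c : Fˣ} (h : Near M q n a c) :
    Near M q n 1 ((c * a⁻¹ : Fˣ) : F) := by
  rcases q with O | e
  · obtain ⟨b, hb, hc⟩ := h
    refine ⟨b, hb, ?_⟩
    rw [Units.val_mul, hc, Units.val_inv_eq_inv_val]
    have := a.ne_zero
    field_simp
  · have h' : |e.f (c : F) - e.f (a : F)| * (M : e.R) ≤ |e.f (a : F)| := h
    change |e.f ((c * a⁻¹ : Fˣ) : F) - e.f 1| * (M : e.R) ≤ |e.f 1|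
    have ha : e.f (a : F) ≠ 0 := by rw [Ne, map_eq_zero]; exact a.ne_zero
    have ha' : 0 < |e.f (a : F)| := abs_pos.2 ha
    have e1 : e.f ((c * a⁻¹ : Fˣ) : F) - 1 = (e.f (c : F) - e.f (a : F)) / e.f (a : F) := by
      rw [Units.val_mul, Units.val_inv_eq_inv_val, map_mul, map_inv₀]
      field_simp
    rw [map_one, abs_one, e1, abs_div, div_mul_eq_mul_div, div_le_one ha']
    exact h'

theorem near_mul (q : Place F) (y : Fˣ)
    (hy : ∀ O, q = .inl O → (y : F) ∈ O ∧ (y : F)⁻¹ ∉ O) {N : ℕ} {u w : Fˣ}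
    (h : Near (7 * N + 7) q ((y * y : Fˣ) : F) 1 u) (h' : Near (7 * N + 7) q ((y * y : Fˣ) : F) 1 w) :
    Near N q ((y * y : Fˣ) : F) 1 ((u * w ^ 2 : Fˣ) : F) := by
  rcases q with O | e
  · obtain ⟨h1, h2⟩ := hy O rfl
    obtain ⟨b, hb, hu⟩ := h
    obtain ⟨b', hb', hw⟩ := h'
    have hyO : ((y * y : Fˣ) : F) ∈ O := by rw [Units.val_mul]; exact O.mul_mem _ _ h1 h1
    refine ⟨b + (1 + (y * y : Fˣ) * b) * (2 * b' + (y * y : Fˣ) * (b' * b')), ?_, ?_⟩
    · refine O.add_mem _ _ hb (O.mul_mem _ _ (O.add_mem _ _ O.one_mem (O.mul_mem _ _ hyO hb))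
        (O.add_mem _ _ (O.mul_mem _ _ ?_ hb') (O.mul_mem _ _ hyO (O.mul_mem _ _ hb' hb'))))
      rw [← one_add_one_eq_two]
      exact O.add_mem _ _ O.one_mem O.one_mem
    · rw [Units.val_mul, Units.val_pow_eq_pow_val, hu, hw]
      ring
  · have k : |e.f (u : F) - e.f 1| * ((7 * N + 7 : ℕ) : e.R) ≤ |e.f 1| := h
    have k' : |e.f (w : F) - e.f 1| * ((7 * N + 7 : ℕ) : e.R) ≤ |e.f 1| := h'
    change |e.f ((u * w ^ 2 : Fˣ) : F) - e.f 1| * (N : e.R) ≤ |e.f 1|
    rw [map_one, abs_one] at k k' ⊢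
    rw [Units.val_mul, Units.val_pow_eq_pow_val, map_mul, map_pow]
    generalize e.f (u : F) = U at k ⊢
    generalize e.f (w : F) = W at k' ⊢
    push_cast at k k'
    have hN : (0 : e.R) ≤ N := Nat.cast_nonneg N
    obtain ⟨x, hx⟩ : ∃ x, x = |U - 1| := ⟨_, rfl⟩
    obtain ⟨z, hz⟩ : ∃ z, z = |W - 1| := ⟨_, rfl⟩
    rw [← hx] at k
    rw [← hz] at k'
    have hx0 : 0 ≤ x := by rw [hx]; exact abs_nonneg _
    have hz0 : 0 ≤ z := by rw [hz]; exact abs_nonneg _
    have hx1 : 7 * x ≤ 1 := by nlinarith [mul_nonneg hx0 hN]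
    have hz1 : 7 * z ≤ 1 := by nlinarith [mul_nonneg hz0 hN]
    have hxN : 7 * (x * N) ≤ 1 := by nlinarith [mul_nonneg hx0 hN]
    have hzN : 7 * (z * N) ≤ 1 := by nlinarith [mul_nonneg hz0 hN]
    have e1 : U * W ^ 2 - 1 = (U - 1) * ((W - 1) * (W - 1) + 2 * (W - 1) + 1) +
        ((W - 1) * (W - 1) + 2 * (W - 1)) := by ring
    have h1 : |(W - 1) * (W - 1) + 2 * (W - 1)| ≤ z * z + 2 * z := by
      refine (abs_add_le _ _).trans ?_
      rw [abs_mul, abs_mul, ← hz, abs_two]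
    have h2 : |(W - 1) * (W - 1) + 2 * (W - 1) + 1| ≤ z * z + 2 * z + 1 := by
      refine (abs_add_le _ _).trans ?_
      rw [abs_one]
      linarith
    have h3 : |U * W ^ 2 - 1| ≤ x * (z * z + 2 * z + 1) + (z * z + 2 * z) := by
      rw [e1]
      refine (abs_add_le _ _).trans (add_le_add ?_ h1)
      rw [abs_mul, ← hx]
      exact mul_le_mul_of_nonneg_left h2 hx0
    have h4 : z * z ≤ z := by nlinarith
    have h5 : z * z + 2 * z + 1 ≤ 2 := by nlinarith
    have h6 : |U * W ^ 2 - 1| ≤ 2 * x + 3 * z := by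
      have := mul_le_mul_of_nonneg_left h5 hx0
      linarith
    have h7 := mul_le_mul_of_nonneg_right h6 hN
    nlinarith

/-- the place attached to an index -/
def qq {ι κ : Type} (O : ι → ValuationSubring F) (e : κ → OrdEmb F) : ι ⊕ κ → Place F
  | .inl i => .inl (O i)
  | .inr j => .inr (e j)

def nn {ι κ : Type} (y : Fˣ) : ι ⊕ κ → Fˣ
  | .inl _ => y * y
  | .inr _ => 1

theorem pw_pos (e : OrdEmb F) : pwG F 2 ≤ Pos e := by
  rintro _ ⟨c, rfl⟩
  change 0 < e.f ((c ^ 2 : Fˣ) : F)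
  rw [Units.val_pow_eq_pow_val, map_pow]
  have : e.f (c : F) ≠ 0 := by rw [Ne, map_eq_zero]; exact c.ne_zero
  positivity

theorem one_add_pos (e : OrdEmb F) (x : F) (hx : x ∈ Arch e) (hx' : x⁻¹ ∉ Arch e) :
    ∃ t ∈ Pos e, (t : F) = 1 + x := by
  have h1 : |e.f x| < 1 := by
    by_contra hn
    apply hx'
    refine ⟨1, ?_⟩
    rw [map_inv₀, abs_inv, Nat.cast_one]
    exact inv_le_one_of_one_le₀ (not_lt.1 hn)
  have h2 : 0 < e.f (1 + x) := by
    rw [map_add, map_one]
    have := (abs_lt.1 h1).1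
    linarith
  have h3 : (1 : F) + x ≠ 0 := by
    intro h
    rw [h, map_zero] at h2
    exact lt_irrefl _ h2
  exact ⟨Units.mk0 _ h3, h2, rfl⟩

theorem c1o : S_C1O := by
  intro clo F _ ι κ _ _ T O J e S y hy g hg hg' N
  classical
  have hyq : ∀ q : ι ⊕ κ, ∀ O', qq O e q = .inl O' → (y : F) ∈ O' ∧ (y : F)⁻¹ ∉ O' := by
    intro q O' h
    rcases q with i | j
    · have h1 : O i = O' := Sum.inl.inj h
      rw [← h1]
      exact ⟨(hy i).1, (hy i).2.1⟩
    · exact absurd h (by simp [qq])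
  -- the tolerances are in the groups `UU`
  have hU : ∀ q r : ι ⊕ κ, q ≠ r → (nn y q : Fˣ) ∈ UU (Rg (qq O e q)) (Rg (qq O e r)) := by
    intro q r hqr
    rcases q with i | j
    · have h1 : y ∈ UU (Rg (qq O e (Sum.inl i : ι ⊕ κ))) (Rg (qq O e r)) := by
        rcases r with i' | j
        · exact sep (S.dat i) (S.dat i').pw (S.dat i').one_add
            (S.ne i i' fun h => hqr (by rw [h])) (hy i).1 (hy i).2.1 (hy i).2.2
        · exact sep (S.dat i) (pw_pos (e j)) (one_add_pos (e j)) (S.neO i j) (hy i).1 (hy i).2.1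
            (hy i).2.2
      exact mul_mem h1 h1
    · exact one_mem _
  have hP : ∀ q r : ι ⊕ κ, q ≠ r → PSep (qq O e q) (qq O e r) := by
    intro q r hqr
    rcases q with i | j <;> rcases r with i' | j'
    · trivial
    · trivial
    · trivial
    · exact S.sep j j' fun h => hqr (by rw [h])
  -- one place
  have hone : ∀ (r : ι ⊕ κ) (M : ℕ), ∃ c : Fˣ, Near M (qq O e r) ((y * y : Fˣ) : F) 1 ((g * c ^ 2 : Fˣ) : F) := by
    intro r M
    rcases r with i | j
    · obtain ⟨b, hb, a, ea⟩ := (S.dat i).gen y (hy i).1 (hy i).2.1 (hy i).2.2 g (hg i)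
      refine ⟨a⁻¹, b, hb, ?_⟩
      rw [Units.val_mul, Units.val_pow_eq_pow_val, Units.val_inv_eq_inv_val, ea, Units.val_mul]
      have := a.ne_zero
      field_simp
    · obtain ⟨c, hc⟩ := S.iso j g (hg' j) M
      refine ⟨c, ?_⟩
      change |(e j).f ((g * c ^ 2 : Fˣ) : F) - (e j).f 1| * (M : (e j).R) ≤ |(e j).f 1|
      rw [map_one, abs_one]
      exact hc
  have main : ∀ s : Finset (ι ⊕ κ), ∀ N : ℕ, ∃ c : Fˣ, ∀ q ∈ s,
      Near N (qq O e q) ((y * y : Fˣ) : F) 1 ((g * c ^ 2 : Fˣ) : F) := by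
    intro s
    induction s using Finset.induction_on with
    | empty => exact fun N => ⟨1, fun q hq => absurd hq (Finset.notMem_empty q)⟩
    | insert r s hr ih =>
      intro N
      have hM : 2 ≤ 7 * N + 7 := by omega
      obtain ⟨c₀, hc₀⟩ := ih (7 * N + 7)
      obtain ⟨cr, hcr⟩ := hone r (7 * N + 7)
      have hqr : ∀ q ∈ s, q ≠ r := fun q hq h => hr (h ▸ hq)
      have hur := near_unit (qq O e r) y (hyq r) hM hcr
      have hUa : ∀ q ∈ s, cr * c₀⁻¹ ∈ UU (Rg (qq O e q)) (Rg (qq O e r)) := by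
        intro q hq
        apply UU_pow (p := 2) two_ne_zero
        have huq := near_unit (qq O e q) y (hyq q) hM (hc₀ q hq)
        have e3 : (cr * c₀⁻¹) ^ 2 = (g * cr ^ 2) * (g * c₀ ^ 2)⁻¹ := by
          rw [mul_pow, inv_pow, mul_inv]
          rw [mul_mul_mul_comm, mul_inv_cancel, one_mul]
        rw [e3]
        exact mul_mem (UU_right hur.1 hur.2) (inv_mem (UU_left huq.1 huq.2))
      obtain ⟨c, hc1, hc2⟩ := clo F (ι ⊕ κ) (qq O e) s r hr (fun q hq => hP q r (hqr q hq))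
        (7 * N + 7) (nn y) (cr * c₀⁻¹) (by
          intro q _
          rcases q with i | j
          · refine ⟨?_, fun h2 => (hy i).2.1 ?_⟩
            · change ((y * y : Fˣ) : F) ∈ O i
              rw [Units.val_mul]
              exact (O i).mul_mem _ _ (hy i).1 (hy i).1
            · have h2' : ((y * y : Fˣ) : F)⁻¹ ∈ O i := h2
              rw [Units.val_mul] at h2'
              have h3 : (y : F)⁻¹ = y * ((y : F) * y)⁻¹ := by
                have := y.ne_zero
                field_simp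
              rw [h3]
              exact (O i).mul_mem _ _ (hy i).1 h2'
          · trivial)
        (fun q hq => ⟨hU q r (hqr q hq), UU_comm (hU r q (hqr q hq).symm), hUa q hq⟩)
      -- at orderings the tolerance does not matter
      have hnn : ∀ (q : ι ⊕ κ) (a c : F), Near (7 * N + 7) (qq O e q) ((nn y q : Fˣ) : F) a c →
          Near (7 * N + 7) (qq O e q) ((y * y : Fˣ) : F) a c := by
        intro q a c h
        rcases q with i | j
        · exact h
        · exact h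
      refine ⟨c₀ * c, fun q hq => ?_⟩
      rcases Finset.mem_insert.1 hq with rfl | hq'
      · have h1 : Near (7 * N + 7) (qq O e q) ((y * y : Fˣ) : F) 1 ((c * (cr * c₀⁻¹)⁻¹ : Fˣ) : F) :=
          near_div (hnn q _ _ hc2)
        have h2 := near_mul (qq O e q) y (hyq q) hcr h1
        have e4 : g * cr ^ 2 * (c * (cr * c₀⁻¹)⁻¹) ^ 2 = g * (c₀ * c) ^ 2 := by
          apply Units.ext
          simp only [Units.val_mul, Units.val_pow_eq_pow_val, Units.val_inv_eq_inv_val]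
          have := cr.ne_zero
          have := c₀.ne_zero
          field_simp
        rw [e4] at h2
        exact h2
      · have h2 := near_mul (qq O e q) y (hyq q) (hc₀ q hq') (hnn q _ _ (hc1 q hq'))
        have e4 : g * c₀ ^ 2 * c ^ 2 = g * (c₀ * c) ^ 2 := by
          rw [mul_pow, mul_assoc]
        rw [e4] at h2
        exact h2
  obtain ⟨c, hc⟩ := main Finset.univ N
  refine ⟨c, fun i => ?_, fun j => ?_⟩
  · obtain ⟨b, hb, h⟩ := hc (Sum.inl i) (Finset.mem_univ _)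
    refine ⟨b, hb, ?_⟩
    rw [h, one_mul, Units.val_mul]
  · have h : |(e j).f ((g * c ^ 2 : Fˣ) : F) - (e j).f 1| * (N : (e j).R) ≤ |(e j).f 1| :=
      hc (Sum.inr j) (Finset.mem_univ _)
    rwa [map_one, abs_one] at h

end Pool.Agent.P8H55.FP
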